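import Pool.Agent.Helper27.UC.Goals

/-!
PROJECT UC (MP_d3128a_ag), packet BR: forms and affine polynomials.
-/

set_option autoImplicit false

noncomputable section

namespace Pool.Agent.Helper45.UC.BR

open Polynomial Module Pool.Agent.Helper97.Tate Pool.Agent.Helper27.UC

variable {K : Type} [Field K]

/-- the ideal of the origin -/
abbrev II (K : Type) [Field K] : Ideal (MvPolynomial (Fin 3) K) := MvPolynomial.idealOfVars (Fin 3) K

theorem mem_Van {P : Fin 3 → K} {m : ℕ} {z : MvPolynomial (Fin 3) K} :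
    z ∈ Van P m ↔ tau P z ∈ II K ^ m := by
  rw [MvPolynomial.mem_pow_idealOfVars_iff']
  rfl

theorem Fm_eq (d : ℕ) : Fm K (d : ℤ) = MvPolynomial.homogeneousSubmodule (Fin 3) K d := by
  rw [Fm, if_pos (by omega), Int.toNat_natCast]

theorem mem_Fm {d : ℕ} {z : MvPolynomial (Fin 3) K} : z ∈ Fm K (d : ℤ) ↔ z.IsHomogeneous d := by
  rw [Fm_eq, MvPolynomial.mem_homogeneousSubmodule]

theorem X_mem (i : Fin 3) : (MvPolynomial.X i : MvPolynomial (Fin 3) K) ∈ II K :=
  Ideal.subset_span ⟨i, rfl⟩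

/-- `x ↦ x + a w`, `y ↦ y + b w` -/
def sg (a b : K) : MvPolynomial (Fin 3) K →ₐ[K] MvPolynomial (Fin 3) K :=
  MvPolynomial.aeval ![MvPolynomial.X 0 + MvPolynomial.C a * MvPolynomial.X 2,
    MvPolynomial.X 1 + MvPolynomial.C b * MvPolynomial.X 2, MvPolynomial.X 2]

/-- `x ↦ x - a w`, `y ↦ y - b w`, `w ↦ w + 1` -/
def et (a b : K) : MvPolynomial (Fin 3) K →ₐ[K] MvPolynomial (Fin 3) K :=
  MvPolynomial.aeval ![MvPolynomial.X 0 - MvPolynomial.C a * MvPolynomial.X 2,
    MvPolynomial.X 1 - MvPolynomial.C b * MvPolynomial.X 2, MvPolynomial.X 2 + 1]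

/-- restriction to `w = 0` -/
def th0 : MvPolynomial (Fin 3) K →ₐ[K] R2 K :=
  MvPolynomial.aeval ![C X, X, 0]

theorem tau_eq (a b : K) : tau ![a, b, 1] = (et a b).comp (sg a b) := by
  apply MvPolynomial.algHom_ext
  intro i
  fin_cases i
  · simp [tau, et, sg]
    ring
  · simp [tau, et, sg]
    ring
  · simp [tau, et, sg]

theorem del_eq (a b : K) : del a b = (del 0 0).comp (sg a b) := by
  apply MvPolynomial.algHom_ext
  intro i
  fin_cases i
  · simp [del, sg]
  · simp [del, sg]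
  · simp [del, sg]

theorem del_eq' (a b : K) : del a b = th0.comp (tau ![a, b, 1]) := by
  apply MvPolynomial.algHom_ext
  intro i
  fin_cases i
  · simp [del, tau, th0]
  · simp [del, tau, th0]
  · simp [del, tau, th0]

theorem sg_inv (a b : K) (z : MvPolynomial (Fin 3) K) : sg (-a) (-b) (sg a b z) = z := by
  have h : (sg (-a) (-b)).comp (sg a b) = AlgHom.id K _ := by
    apply MvPolynomial.algHom_ext
    intro i
    fin_cases i
    · simp [sg]
    · simp [sg]
    · simp [sg]
  exact DFunLike.congr_fun h z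

theorem sg_hom (a b : K) {d : ℕ} {z : MvPolynomial (Fin 3) K} (hz : z.IsHomogeneous d) :
    (sg a b z).IsHomogeneous d := by
  have h := hz.aeval (g := (![MvPolynomial.X 0 + MvPolynomial.C a * MvPolynomial.X 2,
    MvPolynomial.X 1 + MvPolynomial.C b * MvPolynomial.X 2, MvPolynomial.X 2] :
      Fin 3 → MvPolynomial (Fin 3) K)) (n := 1)
    (by
      intro i
      fin_cases i
      · exact (MvPolynomial.isHomogeneous_X _ _).add (MvPolynomial.isHomogeneous_C_mul_X _ _)
      · exact (MvPolynomial.isHomogeneous_X _ _).add (MvPolynomial.isHomogeneous_C_mul_X _ _)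
      · exact MvPolynomial.isHomogeneous_X _ _)
  rw [one_mul] at h
  unfold sg
  exact h

theorem hom_deg {d : ℕ} {f : MvPolynomial (Fin 3) K} (hf : f.IsHomogeneous d) {x : Fin 3 →₀ ℕ}
    (hx : x ∈ f.support) : x.degree = d := by
  have h3 := hf (MvPolynomial.mem_support_iff.1 hx)
  rw [Finsupp.degree_eq_weight_one]
  exact h3

theorem cof_sum {ι : Type} (s : Finset ι) (F : ι → R2 K) (i j : ℕ) :
    cof i j (∑ x ∈ s, F x) = ∑ x ∈ s, cof i j (F x) := by
  unfold cof
  rw [Polynomial.finsetSum_coeff, Polynomial.finsetSum_coeff]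

theorem cof_mon (c : K) (a b i j : ℕ) :
    cof i j (C (C c) * (C X ^ a * X ^ b) : R2 K) = if a = i ∧ b = j then c else 0 := by
  have h : (C (C c) * (C X ^ a * X ^ b) : R2 K) = C (C c * X ^ a) * X ^ b := by
    simp only [map_mul, map_pow]
    ring
  unfold cof
  rw [h, Polynomial.coeff_C_mul_X_pow]
  by_cases hj : j = b
  · rw [if_pos hj, Polynomial.coeff_C_mul_X_pow]
    by_cases hi : i = a
    · rw [if_pos hi, if_pos ⟨hi.symm, hj.symm⟩]
    · rw [if_neg hi, if_neg (fun h => hi h.1.symm)]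
  · rw [if_neg hj, Polynomial.coeff_zero, if_neg (fun h => hj h.2.symm)]

theorem del_mon (x : Fin 3 →₀ ℕ) (c : K) :
    del 0 0 (MvPolynomial.monomial x c) = C (C c) * (C X ^ x 0 * X ^ x 1) := by
  unfold del
  rw [MvPolynomial.aeval_monomial, Finsupp.prod_fintype _ _ (fun _ => pow_zero _), Fin.prod_univ_three]
  simp

theorem th0_mon (x : Fin 3 →₀ ℕ) (c : K) :
    th0 (MvPolynomial.monomial x c) = C (C (if x 2 = 0 then c else 0)) * (C X ^ x 0 * X ^ x 1) := by
  unfold th0
  rw [MvPolynomial.aeval_monomial, Finsupp.prod_fintype _ _ (fun _ => pow_zero _), Fin.prod_univ_three]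
  by_cases h : x 2 = 0
  · simp [h]
  · simp [h]

theorem cof_del (i j : ℕ) (f : MvPolynomial (Fin 3) K) :
    cof i j (del 0 0 f) = ∑ x ∈ f.support, if x 0 = i ∧ x 1 = j then MvPolynomial.coeff x f else 0 := by
  conv_lhs => rw [f.as_sum, map_sum, cof_sum]
  refine Finset.sum_congr rfl fun x _ => ?_
  rw [del_mon, cof_mon]

theorem cof_th0 (i j : ℕ) (f : MvPolynomial (Fin 3) K) :
    cof i j (th0 f) = ∑ x ∈ f.support,
      if x 0 = i ∧ x 1 = j then (if x 2 = 0 then MvPolynomial.coeff x f else 0) else 0 := by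
  conv_lhs => rw [f.as_sum, map_sum, cof_sum]
  refine Finset.sum_congr rfl fun x _ => ?_
  rw [th0_mon, cof_mon]

theorem deg3 (x : Fin 3 →₀ ℕ) : x.degree = x 0 + x 1 + x 2 := by
  rw [Finsupp.degree_eq_sum, Fin.sum_univ_three]

theorem cof_hom {d : ℕ} {f : MvPolynomial (Fin 3) K} (hf : f.IsHomogeneous d) {e : Fin 3 →₀ ℕ}
    (he : e.degree = d) : cof (e 0) (e 1) (del 0 0 f) = MvPolynomial.coeff e f := by
  rw [cof_del]
  have h1 : ∀ x ∈ f.support, (if x 0 = e 0 ∧ x 1 = e 1 then MvPolynomial.coeff x f else 0) =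
      if x = e then MvPolynomial.coeff e f else 0 := by
    intro x hx
    have h2 : x.degree = d := hom_deg hf hx
    by_cases hxe : x = e
    · rw [if_pos hxe, hxe, if_pos ⟨rfl, rfl⟩]
    · rw [if_neg hxe, if_neg]
      rintro ⟨h4, h5⟩
      apply hxe
      rw [deg3] at h2 he
      ext i
      fin_cases i
      · exact h4
      · exact h5
      · show x 2 = e 2
        omega
  rw [Finset.sum_congr rfl h1, Finset.sum_ite_eq']
  split_ifs with h
  · rfl
  · exact (MvPolynomial.notMem_support_iff.1 h).symm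

theorem br2 {d : ℕ} (a b : K) (z : MvPolynomial (Fin 3) K) (hz : z ∈ Fm K (d : ℤ))
    (h : del a b z = 0) : z = 0 := by
  have h1 := sg_hom a b (mem_Fm.1 hz)
  have h2 : sg a b z = 0 := by
    ext e
    rw [MvPolynomial.coeff_zero]
    by_cases he : e.degree = d
    · rw [← cof_hom h1 he]
      have h3 : del 0 0 (sg a b z) = 0 := by
        rw [← h, del_eq a b]
        rfl
      rw [h3]
      simp [cof]
    · exact h1.coeff_eq_zero he
  rw [← sg_inv a b z, h2, map_zero]

theorem et_mon (a b : K) (x : Fin 3 →₀ ℕ) (c : K) :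
    et a b (MvPolynomial.monomial x c) ∈ II K ^ (x 0 + x 1) := by
  unfold et
  rw [MvPolynomial.aeval_monomial, Finsupp.prod_fintype _ _ (fun _ => pow_zero _), Fin.prod_univ_three]
  refine Ideal.mul_mem_left _ _ (Ideal.mul_mem_right _ _ ?_)
  rw [pow_add]
  refine Ideal.mul_mem_mul (Ideal.pow_mem_pow ?_ _) (Ideal.pow_mem_pow ?_ _)
  · exact Ideal.sub_mem _ (X_mem 0) (Ideal.mul_mem_left _ _ (X_mem 2))
  · exact Ideal.sub_mem _ (X_mem 1) (Ideal.mul_mem_left _ _ (X_mem 2))

theorem br1 {d : ℕ} (a b : K) (m : ℕ) (z : MvPolynomial (Fin 3) K) (hz : z ∈ Fm K (d : ℤ)) :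
    z ∈ Van ![a, b, 1] m ↔ del a b z ∈ Od m := by
  constructor
  · intro h
    have h1 := (MvPolynomial.mem_pow_idealOfVars_iff m _).1 (mem_Van.1 h)
    intro i j hij
    rw [del_eq' a b]
    show cof i j (th0 (tau ![a, b, 1] z)) = 0
    rw [cof_th0]
    refine Finset.sum_eq_zero fun x hx => ?_
    split_ifs with h2 h3
    · exfalso
      have h4 := h1 x hx
      rw [deg3] at h4
      omega
    · rfl
    · rfl
  · intro h
    have h1 := sg_hom a b (mem_Fm.1 hz)
    rw [mem_Van, tau_eq]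
    show et a b (sg a b z) ∈ II K ^ m
    rw [(sg a b z).as_sum, map_sum]
    refine Ideal.sum_mem _ fun x hx => ?_
    have h2 : x.degree = d := hom_deg h1 hx
    have h4 : m ≤ x 0 + x 1 := by
      by_contra hlt
      have h5 := h (x 0) (x 1) (by omega)
      rw [del_eq a b] at h5
      have h6 : cof (x 0) (x 1) (del 0 0 (sg a b z)) = 0 := h5
      rw [cof_hom h1 h2] at h6
      exact MvPolynomial.mem_support_iff.1 hx h6
    exact Ideal.pow_le_pow_right h4 (et_mon a b x _)

theorem br3 (u v a b : K) (z : MvPolynomial (Fin 3) K) :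
    sh u v (del a b z) = del (a + u) (b + v) z := by
  have h : (sh u v).comp (del a b) = del (a + u) (b + v) := by
    apply MvPolynomial.algHom_ext
    intro i
    fin_cases i
    · simp [del, sh, subt]
      ring
    · simp [del, sh, subt]
      ring
    · simp [del, sh, subt]
  exact DFunLike.congr_fun h z

/-- the scaling -/
def sc (c : K) : MvPolynomial (Fin 3) K →ₐ[K] MvPolynomial (Fin 3) K :=
  MvPolynomial.aeval fun i => MvPolynomial.C c * MvPolynomial.X i

theorem sc_tau (c : K) (P : Fin 3 → K) (z : MvPolynomial (Fin 3) K) :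
    sc c (tau (c • P) z) = tau P (sc c z) := by
  have h : (sc c).comp (tau (c • P)) = (tau P).comp (sc c) := by
    apply MvPolynomial.algHom_ext
    intro i
    simp [sc, tau]
    ring
  exact DFunLike.congr_fun h z

theorem sc_hom (c : K) {d : ℕ} {z : MvPolynomial (Fin 3) K} (hz : z.IsHomogeneous d) :
    sc c z = MvPolynomial.C (c ^ d) * z := by
  conv_lhs => rw [z.as_sum, map_sum]
  conv_rhs => rw [z.as_sum, Finset.mul_sum]
  refine Finset.sum_congr rfl fun x hx => ?_
  have h2 : x.degree = d := hom_deg hz hx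
  unfold sc
  rw [MvPolynomial.aeval_monomial, MvPolynomial.monomial_eq,
    Finsupp.prod_fintype _ _ (fun _ => pow_zero _), Finsupp.prod_fintype _ _ (fun _ => pow_zero _),
    Fin.prod_univ_three, Fin.prod_univ_three, ← h2, deg3]
  simp only [mul_pow, pow_add, map_mul, map_pow]
  rw [MvPolynomial.algebraMap_eq]
  ring

theorem sc_mem (c : K) (m : ℕ) {g : MvPolynomial (Fin 3) K} (hg : g ∈ II K ^ m) :
    sc c g ∈ II K ^ m := by
  have h1 : Ideal.map (sc c) (II K) ≤ II K := by
    rw [Ideal.map_le_iff_le_comap, Ideal.span_le]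
    rintro _ ⟨i, rfl⟩
    show sc c (MvPolynomial.X i) ∈ II K
    rw [sc, MvPolynomial.aeval_X]
    exact Ideal.mul_mem_left _ _ (X_mem i)
  have h2 := Ideal.mem_map_of_mem (sc c) hg
  rw [Ideal.map_pow] at h2
  exact Ideal.pow_right_mono h1 m h2

theorem br4 {d : ℕ} (c : K) (P : Fin 3 → K) (m : ℕ) (z : MvPolynomial (Fin 3) K) (hc : c ≠ 0)
    (hz : z ∈ Fm K (d : ℤ)) (h : z ∈ Van (c • P) m) : z ∈ Van P m := by
  rw [mem_Van] at h ⊢
  have h1 := sc_mem c m h
  rw [sc_tau, sc_hom c (mem_Fm.1 hz), map_mul] at h1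
  have h2 : tau P (MvPolynomial.C (c ^ d)) = MvPolynomial.C (c ^ d) := (tau P).commutes _
  rw [h2] at h1
  have h3 := Ideal.mul_mem_left (II K ^ m) (MvPolynomial.C ((c ^ d)⁻¹)) h1
  rw [← mul_assoc, ← MvPolynomial.C_mul, inv_mul_cancel₀ (pow_ne_zero d hc), MvPolynomial.C_1,
    one_mul] at h3
  exact h3

theorem t : S_BR := by
  intro K _ _ d
  refine ⟨fun a b m z hz => br1 a b m z hz, fun a b z hz h => br2 a b z hz h,
    fun u v a b z => br3 u v a b z, fun c P m z hc hz => ⟨br4 c P m z hc hz, fun h => ?_⟩, ?_⟩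
  · refine br4 c⁻¹ (c • P) m z (inv_ne_zero hc) hz ?_
    rw [smul_smul, inv_mul_cancel₀ hc, one_smul]
    exact h
  · rw [Fm_eq]
    exact Module.Finite.iff_fg.2 (MvPolynomial.homogeneousSubmodule_fg (Fin 3) K d)

end Pool.Agent.Helper45.UC.BR
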