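import Pool.Agent.Helper27.UC.Goals3
import Mathlib

/-!
PROJECT UC (MP_d3128a_ag), goal FRM: binary forms (helper45).
-/

set_option autoImplicit false

noncomputable section

namespace Pool.Agent.Helper45.UC.FRM

open Polynomial Module Pool.Agent.Helper27.UC

theorem t : S_FRM := by
  intro K _ _ t G1 G0 hG1 hG0 hD ht
  by_contra hcon
  rw [not_le] at hcon
  let ρ : (ℕ → K) →ₗ[K] (Fin (t + 1) → K) := LinearMap.funLeft K K (fun j : Fin (t + 1) => (j : ℕ))
  have hG0fin : FiniteDimensional K G0 := by
    refine Module.Finite.of_injective (ρ.comp G0.subtype) ?_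
    rw [injective_iff_map_eq_zero]
    intro g hg
    ext j
    by_cases hj : t < j
    · exact hG0 g g.2 j hj
    · exact congrFun hg ⟨j, by omega⟩
  have hG1fin : FiniteDimensional K G1 := FiniteDimensional.of_finrank_pos (by omega)
  have key : ∀ x : K, (fun j : ℕ => ((t + 1).choose j : K) * x ^ j) ∈ G1 := by
    intro x
    let L : G1 →ₗ[K] (Fin (t + 1) → K) :=
      { toFun := fun g j => -x * ((t : K) + 1 - (j : ℕ)) * g.1 j + 1 * (((j : ℕ) : K) + 1) *
          g.1 ((j : ℕ) + 1)
        map_add' := by
          intro g g'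
          funext j
          simp only [Submodule.coe_add, Pi.add_apply]
          ring
        map_smul' := by
          intro c g
          funext j
          simp only [Submodule.coe_smul, Pi.smul_apply, smul_eq_mul, RingHom.id_apply]
          ring }
    have hrange : LinearMap.range L ≤ G0.map ρ := by
      rintro _ ⟨g, rfl⟩
      obtain ⟨g', hg', h1⟩ := hD (-x) 1 g.1 g.2
      refine ⟨g', hg', ?_⟩
      funext j
      exact h1 j (by omega)
    have h1 : finrank K (LinearMap.range L) ≤ finrank K G0 :=
      (Submodule.finrank_mono hrange).trans (Submodule.finrank_map_le ρ G0)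
    have h2 := L.finrank_range_add_finrank_ker
    have h3 : LinearMap.ker L ≠ ⊥ := by
      intro h
      rw [h, finrank_bot] at h2
      omega
    obtain ⟨g, hg, hg0⟩ := (Submodule.ne_bot_iff _).1 h3
    have hrec : ∀ j, j ≤ t → ((j : K) + 1) * g.1 (j + 1) = x * ((t : K) + 1 - j) * g.1 j := by
      intro j hj
      have h4 : -x * ((t : K) + 1 - (j : ℕ)) * g.1 j + 1 * ((j : K) + 1) * g.1 (j + 1) = 0 :=
        congrFun (LinearMap.mem_ker.1 hg) ⟨j, by omega⟩
      linear_combination h4
    have hform : ∀ j, j ≤ t + 1 → g.1 j = g.1 0 * (((t + 1).choose j : K) * x ^ j) := by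
      intro j
      induction j with
      | zero => intro _; simp
      | succ j ih =>
        intro hj
        have h4 := hrec j (by omega)
        rw [ih (by omega)] at h4
        have h5 : (((t + 1).choose (j + 1) : ℕ) : K) * ((j : K) + 1) =
            ((t + 1).choose j : K) * ((t : K) + 1 - j) := by
          have h6 := Nat.choose_succ_right_eq (t + 1) j
          have h7 : (((t + 1).choose (j + 1) * (j + 1) : ℕ) : K) =
              (((t + 1).choose j * (t + 1 - j) : ℕ) : K) := by rw [h6]
          rw [Nat.cast_mul, Nat.cast_mul, Nat.cast_sub (by omega)] at h7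
          push_cast at h7
          exact h7
        have h8 : ((j : K) + 1) ≠ 0 := by exact_mod_cast Nat.succ_ne_zero j
        refine mul_left_cancel₀ h8 ?_
        rw [h4, pow_succ]
        linear_combination -(g.1 0 * x ^ j * x) * h5
    have hg00 : g.1 0 ≠ 0 := by
      intro h
      apply hg0
      ext j
      by_cases hj : t + 1 < j
      · exact hG1 g g.2 j hj
      · rw [hform j (by omega), h, zero_mul]
        rfl
    have h9 : (fun j : ℕ => ((t + 1).choose j : K) * x ^ j) = (g.1 0)⁻¹ • g.1 := by
      funext j
      rw [Pi.smul_apply, smul_eq_mul]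
      by_cases hj : t + 1 < j
      · rw [hG1 g g.2 j hj, Nat.choose_eq_zero_of_lt hj]
        simp
      · rw [hform j (by omega), inv_mul_cancel_left₀ hg00]
    rw [h9]
    exact G1.smul_mem _ g.2
  have h10 := fun i : Fin (t + 1) => hD 1 0 _ (key ((i : ℕ) : K))
  choose v hv hv2 using h10
  have hli : LinearIndependent K (fun i : Fin (t + 1) => (⟨v i, hv i⟩ : G0)) := by
    rw [Fintype.linearIndependent_iff]
    intro a ha
    have hinj : Function.Injective (fun i : Fin (t + 1) => ((i : ℕ) : K)) := by
      intro i j hij
      exact Fin.ext (Nat.cast_injective hij)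
    have h11 : a = 0 := by
      refine Matrix.eq_zero_of_forall_pow_sum_mul_pow_eq_zero hinj fun j => ?_
      have h12 : (∑ i, a i • (⟨v i, hv i⟩ : G0)).1 (j : ℕ) = 0 := by
        rw [ha]
        rfl
      rw [AddSubmonoidClass.coe_finsetSum, Finset.sum_apply] at h12
      have h13 : ∀ i, (a i • (⟨v i, hv i⟩ : G0)).1 (j : ℕ) =
          (((t : K) + 1 - (j : ℕ)) * ((t + 1).choose j : K)) * (a i * ((i : ℕ) : K) ^ (j : ℕ)) := by
        intro i
        rw [Submodule.coe_smul, Pi.smul_apply, smul_eq_mul]
        show a i * v i j = _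
        rw [hv2 i j (by omega)]
        ring
      rw [Finset.sum_congr rfl fun i _ => h13 i, ← Finset.mul_sum] at h12
      have h14 : ((t : K) + 1 - (j : ℕ)) * ((t + 1).choose j : K) ≠ 0 := by
        refine mul_ne_zero ?_ ?_
        · have : (t : K) + 1 - (j : ℕ) = ((t + 1 - j : ℕ) : K) := by
            rw [Nat.cast_sub (by omega)]
            push_cast
            ring
          rw [this]
          exact_mod_cast Nat.sub_ne_zero_of_lt j.2
        · exact_mod_cast (Nat.choose_pos (by omega)).ne'
      exact (mul_eq_zero.1 h12).resolve_left h14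
    intro i
    rw [h11]
    rfl
  have h15 := hli.fintype_card_le_finrank
  rw [Fintype.card_fin] at h15
  omega

end Pool.Agent.Helper45.UC.FRM
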