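import Pool.Agent.Helper27.UC.Goals7
import Pool.Agent.Helper90.UC.MONO

/-!
PROJECT UC (MP_d3128a_ag), packet EMPT: emptiness at the first level (helper45).
-/

set_option autoImplicit false

namespace Pool.Agent.Helper45.UC.EMPT

open Module Pool.Agent.Helper97.Tate Pool.Agent.Helper27.UC

lemma van_mono (P : Fin 3 → ℂ) {s t : ℕ} (h : s ≤ t) : Van P t ≤ Van P s :=
  fun _ hz e he => hz e (lt_of_lt_of_le he h)

/-- the conditions are stronger for a larger multiplicity -/
lemma gd_step (d : ℕ) (l : Multiset ℕ) {s t : ℕ} (h : s ≤ t) :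
    gd d (t ::ₘ l) ≤ gd d (s ::ₘ l) := by
  obtain ⟨L, hL, hd⟩ := Pool.Agent.Helper90.UC.gd_attain d (s ::ₘ l)
  obtain ⟨p, L', hp, hL', rfl⟩ : ∃ (p : (Fin 3 → ℂ) × ℕ) (L' : Multiset ((Fin 3 → ℂ) × ℕ)),
      p.2 = s ∧ L'.map Prod.snd = l ∧ L = p ::ₘ L' := by
    have h1 : s ∈ L.map Prod.snd := by rw [hL]; exact Multiset.mem_cons_self _ _
    obtain ⟨p, hp, hps⟩ := Multiset.mem_map.1 h1
    obtain ⟨L', rfl⟩ := Multiset.exists_cons_of_mem hp
    rw [Multiset.map_cons, hps, Multiset.cons_inj_right] at hL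
    exact ⟨p, L', hps, hL, rfl⟩
  refine Pool.Agent.Helper90.UC.gd_le d _ _ ((p.1, t) ::ₘ L') (by rw [Multiset.map_cons, hL'])
    (le_trans ?_ hd)
  have := Pool.Agent.Helper90.UC.fin_spc d (p ::ₘ L')
  apply Submodule.finrank_mono
  unfold spc
  refine inf_le_inf_left _ (le_iInf₂ fun x hx => ?_)
  rcases Multiset.mem_cons.1 hx with rfl | hx
  · exact (iInf₂_le (x.1, t) (Multiset.mem_cons_self _ _)).trans
      (van_mono x.1 (by rw [hp]; exact h))
  · exact iInf₂_le x (Multiset.mem_cons_of_mem hx)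

lemma gd_map (d : ℕ) (A : Multiset ℕ) : ∀ l : Multiset ℕ,
    gd d (A.map (fun v => 2 * v + 1) + l) ≤ gd d (A.map (fun v => 2 * v) + l) := by
  induction A using Multiset.induction_on with
  | empty => intro l; simp
  | cons a A ih =>
    intro l
    rw [Multiset.map_cons, Multiset.map_cons, Multiset.cons_add, Multiset.cons_add]
    refine le_trans ?_ (gd_step d _ (Nat.le_succ (2 * a)))
    rw [← Multiset.add_cons, ← Multiset.add_cons]
    exact ih _

theorem t (hG : S_GLUE3) (hD : Pool.Agent.Helper27.UC.S_DRP) (hV : S_VOI) : S_EMPT := by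
  intro K n m d N u A2 A0 B2 B0 P hHD hCR hN hNn
  have hHD' := hHD
  obtain ⟨hK, hn, hnm, -, hh, -⟩ := hHD'
  have hm : 1 ≤ m := by
    have h1 : 1 ≤ 10 ^ 8 * K ^ 4 := Nat.mul_pos (by norm_num) (pow_pos hK 4)
    omega
  set q := (N + (4 • B2 + B0).sum) / u with hq
  set l : Multiset ℕ := (2 * u + 1 + q) ::ₘ
    (A0.map (fun v => 2 * v + 1) + B0.map (fun v => 2 * v) + P.map Prod.snd) with hl
  have hpos : ∀ v ∈ A2.map (fun v => 2 * v + 1) + B2.map (fun v => 2 * v), 1 ≤ v := by
    intro v hv
    rcases Multiset.mem_add.1 hv with hv | hv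
    · obtain ⟨w, -, rfl⟩ := Multiset.mem_map.1 hv
      omega
    · obtain ⟨w, hw, rfl⟩ := Multiset.mem_map.1 hv
      have h1 := (hh w (Multiset.mem_add.2 (Or.inr hw))).2.1
      have h2 : 1 ≤ w := by
        by_contra h3
        have h4 : w = 0 := by omega
        rw [h4, mul_zero] at h1
        omega
      omega
  have hgl := hG d 0 (A2.map (fun v => 2 * v + 1) + B2.map (fun v => 2 * v)) l hpos ?_ ?_
  · have e : (2 * u + 1 + q) ::ₘ
        ((4 • A2 + A0).map (fun v => 2 * v + 1) + (4 • B2 + B0).map (fun v => 2 * v) +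
          P.map Prod.snd) =
        4 • (A2.map (fun v => 2 * v + 1) + B2.map (fun v => 2 * v)) + l := by
      rw [hl, Multiset.add_cons]
      congr 1
      rw [Multiset.map_add, Multiset.map_add, Multiset.map_nsmul, Multiset.map_nsmul, nsmul_add]
      abel
    rw [e]
    exact Nat.le_zero.1 hgl
  · have h1 := hD K n m d N u A2 A0 B2 B0 P hHD hCR hN hNn
    have e1 : (A2.map (fun v => 2 * v + 1) + B2.map (fun v => 2 * v)).sum =
        2 * (A2.sum + B2.sum) + Multiset.card A2 := by
      rw [Multiset.sum_add, Multiset.sum_map_add, Multiset.sum_map_mul_left,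
        Multiset.sum_map_mul_left, Multiset.map_id', Multiset.map_id', Multiset.map_const',
        Multiset.sum_replicate, smul_eq_mul, mul_one]
      ring
    rw [e1, zero_add]
    refine le_trans ?_ h1
    have e2 : (A2.map (fun v => 2 * v + 1) + B2.map (fun v => 2 * v)).map (fun v => 2 * v) =
        A2.map (fun v => 4 * v + 2) + B2.map (fun v => 4 * v) := by
      rw [Multiset.map_add, Multiset.map_map, Multiset.map_map]
      congr 1
      · exact Multiset.map_congr rfl fun v _ => by simp only [Function.comp]; ring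
      · exact Multiset.map_congr rfl fun v _ => by simp only [Function.comp]; ring
    rw [e2, hl]
    have e3 : 2 * u + (4 * B2.sum + B0.sum) / u ≤ 2 * u + 1 + q := by
      have h2 : (4 * B2.sum + B0.sum) / u ≤ q := by
        rw [hq, Multiset.sum_add, Multiset.sum_nsmul, smul_eq_mul]
        exact Nat.div_le_div_right (Nat.le_add_left _ _)
      omega
    set R := A2.map (fun v => 4 * v + 2) + B2.map (fun v => 4 * v) with hR
    rw [Multiset.add_cons, Multiset.add_cons]
    refine (gd_step d _ e3).trans ?_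
    have e4 : (2 * u + (4 * B2.sum + B0.sum) / u) ::ₘ
        (R + (A0.map (fun v => 2 * v + 1) + B0.map (fun v => 2 * v) + P.map Prod.snd)) =
        A0.map (fun v => 2 * v + 1) + ((2 * u + (4 * B2.sum + B0.sum) / u) ::ₘ
          (R + (B0.map (fun v => 2 * v) + P.map Prod.snd))) := by
      rw [Multiset.add_cons]
      congr 1
      abel
    have e5 : (2 * u + (4 * B2.sum + B0.sum) / u) ::ₘ
        (R + (A0.map (fun v => 2 * v) + B0.map (fun v => 2 * v) + P.map Prod.snd)) =
        A0.map (fun v => 2 * v) + ((2 * u + (4 * B2.sum + B0.sum) / u) ::ₘ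
          (R + (B0.map (fun v => 2 * v) + P.map Prod.snd))) := by
      rw [Multiset.add_cons]
      congr 1
      abel
    rw [e4, e5]
    exact gd_map d A0 _
  · intro A B u' hu
    exact hV K n m d N u A2 A0 B2 B0 P hHD hCR.1 A B u' hu

end Pool.Agent.Helper45.UC.EMPT
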