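import Pool.Agent.Helper27.UC.Goals8
import Pool.Agent.Helper45.UC.EMPT

/-!
PROJECT UC (MP_d3128a_ag), packet EMPT2: emptiness at the first level, explicit version (helper45).
-/

set_option autoImplicit false

namespace Pool.Agent.Helper45.UC.EMPT2

open Module Pool.Agent.Helper97.Tate Pool.Agent.Helper27.UC
open Pool.Agent.Helper45.UC.EMPT (gd_step gd_map)

theorem t (hG : S_GLUE3) (hD : S_DRP2) (hV : S_VOI2) : S_EMPT2 := by
  intro c Q M d N u A2 A0 B2 B0 P hHD hCR hN hNn
  have hHD' := hHD
  obtain ⟨-, -, -, hh, -⟩ := hHD'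
  set q := (N + (4 • B2 + B0).sum) / u with hq
  set l : Multiset ℕ := (2 * u + 1 + q) ::ₘ
    (A0.map (fun v => 2 * v + 1) + B0.map (fun v => 2 * v) + P.map Prod.snd) with hl
  have hpos : ∀ v ∈ A2.map (fun v => 2 * v + 1) + B2.map (fun v => 2 * v), 1 ≤ v := by
    intro v hv
    rcases Multiset.mem_add.1 hv with hv | hv
    · obtain ⟨w, -, rfl⟩ := Multiset.mem_map.1 hv
      omega
    · obtain ⟨w, hw, rfl⟩ := Multiset.mem_map.1 hv
      have h1 := (hh w (Multiset.mem_add.2 (Or.inr hw))).1
      omega
  have hgl := hG d 0 (A2.map (fun v => 2 * v + 1) + B2.map (fun v => 2 * v)) l hpos ?_ ?_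
  · have e : (2 * u + 1 + q) ::ₘ
        ((4 • A2 + A0).map (fun v => 2 * v + 1) + (4 • B2 + B0).map (fun v => 2 * v) +
          P.map Prod.snd) =
        4 • (A2.map (fun v => 2 * v + 1) + B2.map (fun v => 2 * v)) + l := by
      rw [hl, Multiset.add_cons]
      congr 1
      rw [Multiset.map_add, Multiset.map_add, Multiset.map_nsmul, Multiset.map_nsmul, nsmul_add]
      abel
    rw [e]
    exact Nat.le_zero.1 hgl
  · have h1 := hD c Q M d N u A2 A0 B2 B0 P hHD hCR hN hNn
    have e1 : (A2.map (fun v => 2 * v + 1) + B2.map (fun v => 2 * v)).sum =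
        2 * (A2.sum + B2.sum) + Multiset.card A2 := by
      rw [Multiset.sum_add, Multiset.sum_map_add, Multiset.sum_map_mul_left,
        Multiset.sum_map_mul_left, Multiset.map_id', Multiset.map_id', Multiset.map_const',
        Multiset.sum_replicate, smul_eq_mul, mul_one]
      ring
    rw [e1, zero_add]
    refine le_trans ?_ h1
    have e2 : (A2.map (fun v => 2 * v + 1) + B2.map (fun v => 2 * v)).map (fun v => 2 * v) =
        A2.map (fun v => 4 * v + 2) + B2.map (fun v => 4 * v) := by
      rw [Multiset.map_add, Multiset.map_map, Multiset.map_map]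
      congr 1
      · exact Multiset.map_congr rfl fun v _ => by simp only [Function.comp]; ring
      · exact Multiset.map_congr rfl fun v _ => by simp only [Function.comp]; ring
    rw [e2, hl]
    have e3 : 2 * u + (4 * B2.sum + B0.sum) / u ≤ 2 * u + 1 + q := by
      have h2 : (4 * B2.sum + B0.sum) / u ≤ q := by
        rw [hq, Multiset.sum_add, Multiset.sum_nsmul, smul_eq_mul]
        exact Nat.div_le_div_right (Nat.le_add_left _ _)
      omega
    set R := A2.map (fun v => 4 * v + 2) + B2.map (fun v => 4 * v) with hR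
    rw [Multiset.add_cons, Multiset.add_cons]
    refine (gd_step d _ e3).trans ?_
    have e4 : (2 * u + (4 * B2.sum + B0.sum) / u) ::ₘ
        (R + (A0.map (fun v => 2 * v + 1) + B0.map (fun v => 2 * v) + P.map Prod.snd)) =
        A0.map (fun v => 2 * v + 1) + ((2 * u + (4 * B2.sum + B0.sum) / u) ::ₘ
          (R + (B0.map (fun v => 2 * v) + P.map Prod.snd))) := by
      rw [Multiset.add_cons]
      congr 1
      abel
    have e5 : (2 * u + (4 * B2.sum + B0.sum) / u) ::ₘ
        (R + (A0.map (fun v => 2 * v) + B0.map (fun v => 2 * v) + P.map Prod.snd)) =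
        A0.map (fun v => 2 * v) + ((2 * u + (4 * B2.sum + B0.sum) / u) ::ₘ
          (R + (B0.map (fun v => 2 * v) + P.map Prod.snd))) := by
      rw [Multiset.add_cons]
      congr 1
      abel
    rw [e4, e5]
    exact gd_map d A0 _
  · intro A B u' hu
    exact hV c Q M d N u A2 A0 B2 B0 P hHD hCR.1 A B u' hu

end Pool.Agent.Helper45.UC.EMPT2
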