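import Pool.Agent.Helper27.UC.Goals8
import Pool.Agent.Helper25.UC.ONEG

/-!
PROJECT UC part 6 (MP_d3128a_ag), packet ONEH: the degrees next to the critical one, explicit version
(helper45, after ONEG of helper25).
-/

set_option autoImplicit false

namespace Pool.Agent.Helper45.UC.ONEH

open Pool.Agent.Helper27.UC
open Pool.Agent.Helper25.UC.ONEG (qs_eq bs_eq two_choose two_bs)

/-- The multiplicities are large enough for the splitting. -/
lemma T_bound {c Q v w : ℕ} (hc : 1 ≤ c) (hv : 2 ≤ v) (h1 : (100 * c * v) ^ 2 ≤ Q)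
    (h2 : Q ≤ (5 * c * (v * w)) ^ 2) : 2 * (Nat.sqrt (2 * Q) / (40 * c * v) + 1) + 8 ≤ w := by
  set X := c * v with hX
  have hXp : 0 < X := Nat.mul_pos hc (by omega)
  set R := Nat.sqrt (2 * Q) with hR
  set Y := 5 * c * (v * w) with hY
  have hR2 : R ^ 2 ≤ 2 * Q := Nat.sqrt_le' _
  have hRY : 2 * R ≤ 3 * Y := by
    have : (2 * R) ^ 2 ≤ (3 * Y) ^ 2 := by
      calc (2 * R) ^ 2 = 4 * R ^ 2 := by ring
        _ ≤ 4 * (2 * Q) := Nat.mul_le_mul_left _ hR2
        _ ≤ 4 * (2 * Y ^ 2) := by omega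
        _ ≤ (3 * Y) ^ 2 := by nlinarith [Nat.zero_le (Y ^ 2)]
    exact (Nat.pow_le_pow_iff_left (by norm_num)).1 this
  have hXY : 100 * X ≤ Y := by
    have : (100 * X) ^ 2 ≤ Y ^ 2 := by
      refine le_trans (le_of_eq ?_) (h1.trans h2)
      rw [hX]
      ring
    exact (Nat.pow_le_pow_iff_left (by norm_num)).1 this
  have e1 : 40 * c * v = 40 * X := by rw [hX]; ring
  have e2 : 4 * Y = 20 * X * w := by rw [hX, hY]; ring
  rw [e1]
  have h3 : 40 * X * (R / (40 * X)) ≤ R := Nat.mul_div_le _ _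
  have h4 : 20 * X * (2 * (R / (40 * X) + 1) + 8) ≤ 20 * X * w := by
    have e3 : 20 * X * (2 * (R / (40 * X) + 1) + 8) = 40 * X * (R / (40 * X)) + 200 * X := by ring
    rw [e3, ← e2]
    omega
  exact Nat.le_of_mul_le_mul_left h4 (by omega)

/-- The bound for the expected dimension. -/
lemma N_bound {c Q M d N b : ℕ} (hc : 1 ≤ c) (hM : 0 < M) (h1 : 10 ^ 4 * c ^ 2 * Q ≤ M ^ 2)
    (h2 : 2 * M ≤ Q) (hd : d * (d + 1) < Q + M) (hN : N = (d + 2).choose 2 - b)
    (hb : 2 * b = Q + M) : 50 * N ≤ M := by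
  have h3 : 2 * (d + 2).choose 2 = (d + 1) ^ 2 + (d + 1) := two_choose (d + 1)
  have h4 : N ≤ d + 1 := by
    have : (d + 1) ^ 2 + (d + 1) = d * (d + 1) + 2 * (d + 1) := by ring
    omega
  have h5 : (d + 1) ^ 2 ≤ 4 * Q := by
    rcases Nat.eq_zero_or_pos d with rfl | hd0
    · omega
    · have : (d + 1) ^ 2 ≤ 2 * (d * (d + 1)) := by nlinarith
      omega
  have h6 : (50 * (d + 1)) ^ 2 ≤ M ^ 2 := by
    have h7 : 1 * Q ≤ c ^ 2 * Q := Nat.mul_le_mul_right _ (Nat.one_le_pow _ _ hc)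
    have e4 : (10 : ℕ) ^ 4 * c ^ 2 * Q = 10000 * (c ^ 2 * Q) := by ring
    rw [e4] at h1
    calc (50 * (d + 1)) ^ 2 = 2500 * (d + 1) ^ 2 := by ring
      _ ≤ M ^ 2 := by omega
  have h7 : 50 * (d + 1) ≤ M := (Nat.pow_le_pow_iff_left (by norm_num)).1 h6
  omega

theorem t (hG : S_GLUE3) (hL : S_LEV2) (hE : S_EMPT2) (hS : S_SPLT) (hH : S_HES) (hB : S_HEB) :
    S_ONEH := by
  intro c Q M d g P hHF hCR
  obtain ⟨hc, hQ, hM, hg, hP, -, -, hM0, -, -⟩ := id hHF
  have hT : ∀ v ∈ g, 2 * (Nat.sqrt (2 * Q) / (40 * c * v) + 1) + 8 ≤ g.count v := fun v hv =>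
    T_bound hc (hg v hv).1 (hg v hv).2.1 (hg v hv).2.2
  have hpos : ∀ v ∈ g, 1 ≤ v := fun v hv => le_trans (by norm_num) (hg v hv).1
  -- the first decomposition
  obtain ⟨A2, A0, B2, B0, hA, hB0, hcnt⟩ := hS
    (fun v => Nat.sqrt (2 * Q) / (40 * c * v) + 1) g 0 (by
    intro v hv
    rw [add_zero] at hv ⊢
    have := hT v hv
    omega)
  have hgd : g = 4 • (A2 + B2) + (A0 + B0) := by
    calc g = g + 0 := (add_zero g).symm
      _ = (4 • A2 + A0) + (4 • B2 + B0) := by rw [← hA, ← hB0]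
      _ = _ := by rw [nsmul_add]; abel
  have hHE : HE c Q M (A2 + B2) (A0 + B0) P := hH c Q M g (A2 + B2) (A0 + B0) P hHF hgd (by
    intro v hv
    have h3 := hcnt v (by rw [add_zero]; exact hv)
    refine ⟨h3.1, h3.2.trans ?_⟩
    show Nat.sqrt (2 * Q) / (40 * c * v) + 1 + 6 ≤ _
    omega)
  set N := (d + 2).choose 2 -
    ((4 • g + P.map Prod.snd).map fun v => (v + 1).choose 2).sum with hN
  have h2b := two_bs (4 • g + P.map Prod.snd)
  rw [← hQ, ← hM] at h2b
  have hbnd : 50 * N ≤ M := by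
    obtain ⟨b1, b2, -⟩ := hB c Q M _ _ P hHE
    exact N_bound hc hM0 b1 b2 hCR.1 hN h2b
  refine hG d N g (P.map Prod.snd) hpos ?_ ?_
  · have h1 := hL c Q M d N (A2 + B2) (A0 + B0) P hHE hCR (by
      rw [← bs_eq g _ _ P hgd]; omega)
    rw [← hgd] at h1
    exact h1
  · intro A B u hu
    have hcu : ∀ v, g.count v = (A + B).count v + if v = u then 1 else 0 := by
      intro v
      rw [← hu, Multiset.count_cons]
    obtain ⟨A2', A0', B2', B0', hA', hB', hcnt'⟩ := hS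
      (fun v => Nat.sqrt (2 * Q) / (40 * c * v) + 1) A B (by
      intro v hv
      have hvg : v ∈ g := by rw [← hu]; exact Multiset.mem_cons_of_mem hv
      have h1 := hT v hvg
      have h2 := hcu v
      show 2 * (Nat.sqrt (2 * Q) / (40 * c * v) + 1) + 7 ≤ _
      split_ifs at h2 <;> omega)
    have hgd' : g = 4 • (A2' + B2') + u ::ₘ (A0' + B0') := by
      rw [← hu, hA', hB', nsmul_add, ← Multiset.singleton_add, ← Multiset.singleton_add]
      abel
    have hHE' : HE c Q M (A2' + B2') (u ::ₘ (A0' + B0')) P :=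
      hH c Q M g (A2' + B2') (u ::ₘ (A0' + B0')) P hHF hgd' (by
        intro v hv
        have h1 := hT v hv
        have h2 := hcu v
        have hvAB : v ∈ A + B := by
          rw [← Multiset.one_le_count_iff_mem]
          split_ifs at h2 <;> omega
        have h3 : Nat.sqrt (2 * Q) / (40 * c * v) + 1 ≤ (A0' + B0').count v ∧
          (A0' + B0').count v ≤ Nat.sqrt (2 * Q) / (40 * c * v) + 1 + 6 := hcnt' v hvAB
        rw [Multiset.count_cons]
        split_ifs <;> omega)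
    have h1 := hE c Q M d N u A2' A0' B2' B0' P hHE' hCR (by
      rw [← bs_eq g _ _ P hgd']; omega) hbnd
    rw [← hA', ← hB'] at h1
    exact h1

end Pool.Agent.Helper45.UC.ONEH
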