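import Pool.Agent.Helper27.UC.Goals5

/-!
PROJECT UC (MP_d3128a_ag), goal ALLW: all degrees (helper45).
-/

set_option autoImplicit false

noncomputable section

namespace Pool.Agent.Helper45.UC.ALLW

open Module Pool.Agent.Helper97.Tate Pool.Agent.Helper1.All Pool.Agent.Helper27.UC

theorem ch_succ (e : ℕ) : (e + 3).choose 2 = (e + 2).choose 2 + (e + 2) := by
  rw [Nat.choose_succ_succ (e + 2) 1, Nat.choose_one_right]
  ring

theorem two_ch (n : ℕ) : 2 * (n + 1).choose 2 = (n + 1) * n := by
  induction n with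
  | zero => rfl
  | succ n ih =>
    rw [Nat.choose_succ_succ (n + 1) 1, Nat.choose_one_right, mul_add, ih]
    ring

theorem t (hO : S_TWOV) (hM : S_MON) : S_ALLW := by
  intro c d Q V N hLW
  obtain ⟨hc, hVn, hVc, hQ, hx⟩ := id hLW
  set A := ∑ x ∈ V, N x * (x + 1).choose 2 with hA
  set M := ∑ x ∈ V, N x * x with hMd
  set l := ∑ x ∈ V, rp (N x) x with hl
  have hQA : Q + M = 2 * A := by
    rw [hQ, hA, hMd, Finset.mul_sum, ← Finset.sum_add_distrib]
    refine Finset.sum_congr rfl fun x _ => ?_
    have h1 := two_ch x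
    calc N x * x ^ 2 + N x * x = N x * ((x + 1) * x) := by ring
      _ = N x * (2 * (x + 1).choose 2) := by rw [h1]
      _ = 2 * (N x * (x + 1).choose 2) := by ring
  have hQ1 : 0 < Q := by
    obtain ⟨x, hxV⟩ := hVn
    obtain ⟨h2, h3, _⟩ := hx x hxV
    refine lt_of_lt_of_le ?_ h3
    have : 0 < 100 * c * x := by positivity
    positivity
  have hex : ∃ e, A ≤ (e + 2).choose 2 := by
    refine ⟨A, ?_⟩
    rw [Nat.choose_succ_succ (A + 1) 1, Nat.choose_one_right]
    omega
  -- monotonicity
  have hmono : ∀ a b, a ≤ b → gd a l ≤ gd b l := by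
    intro a b hab
    induction b, hab using Nat.le_induction with
    | base => exact le_rfl
    | succ b _ ih => exact ih.trans (hM b l).1
  have hup : ∀ e, gd e l + A ≤ (e + 2).choose 2 → ∀ b, e ≤ b → gd b l + A ≤ (b + 2).choose 2 := by
    intro e he b hb
    induction b, hb using Nat.le_induction with
    | base => exact he
    | succ b _ ih =>
      have h1 := (hM b l).2
      rw [ch_succ]
      omega
  classical
  obtain ⟨e, he, hmin⟩ : ∃ e, A ≤ (e + 2).choose 2 ∧ ∀ e' < e, (e' + 2).choose 2 < A := by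
    refine ⟨Nat.find hex, Nat.find_spec hex, fun e' he' => ?_⟩
    exact not_le.1 (Nat.find_min hex he')
  have hch := two_ch (e + 1)
  have hup1 : Q + M ≤ (e + 2) * (e + 1) := by
    rw [hQA]
    have h1 : 2 * A ≤ 2 * (e + 2).choose 2 := Nat.mul_le_mul_left 2 he
    rw [hch] at h1
    exact h1
  have hlow : e * (e + 1) < Q + M := by
    rcases Nat.eq_zero_or_pos e with h0 | h0
    · rw [h0]
      omega
    · obtain ⟨e', rfl⟩ := Nat.exists_eq_add_of_le' h0
      have h1 := hmin e' (by omega)
      have h2 := two_ch (e' + 1)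
      rw [hQA]
      have h3 : 2 * (e' + 2).choose 2 < 2 * A := by omega
      rw [h2] at h3
      linarith [h3, mul_comm (e' + 1) (e' + 1 + 1)]
  have hE : gd e l ≤ (e + 2).choose 2 - A := by
    refine hO c e Q V N hLW hlow ?_
    refine hup1.trans ?_
    exact Nat.mul_le_mul_left _ (by omega)
  have hE' : gd e l + A ≤ (e + 2).choose 2 := by omega
  by_cases hde : e ≤ d
  · have := hup e hE' d hde
    omega
  · rw [not_le] at hde
    obtain ⟨e', rfl⟩ := Nat.exists_eq_add_of_le' (by omega : 1 ≤ e)
    have h1 : gd e' l ≤ (e' + 2).choose 2 - A := by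
      refine hO c e' Q V N hLW ?_ ?_
      · refine lt_of_le_of_lt ?_ hlow
        exact Nat.mul_le_mul (by omega) (by omega)
      · refine hup1.trans (le_of_eq ?_)
        ring
    have h2 := hmin e' (by omega)
    have h3 := hmono d e' (by omega)
    omega

end Pool.Agent.Helper45.UC.ALLW
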