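import Pool.Agent.Helper27.UC.Goals4

/-!
PROJECT UC (MP_d3128a_ag), goal ALLV: all degrees (helper45).
-/

set_option autoImplicit false

noncomputable section

namespace Pool.Agent.Helper45.UC.ALLV

open Module Pool.Agent.Helper97.Tate Pool.Agent.Helper1.All Pool.Agent.Helper27.UC

theorem ch_succ (e : ℕ) : (e + 3).choose 2 = (e + 2).choose 2 + (e + 2) := by
  rw [Nat.choose_succ_succ (e + 2) 1, Nat.choose_one_right]
  ring

theorem two_ch (n : ℕ) : 2 * (n + 1).choose 2 = (n + 1) * n := by
  induction n with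
  | zero => rfl
  | succ n ih =>
    rw [Nat.choose_succ_succ (n + 1) 1, Nat.choose_one_right, mul_add, ih]
    ring

theorem t (hO : S_ONEV) (hM : S_MON) : S_ALLV := by
  intro c d D V N hLV
  obtain ⟨hc, hVn, hVc, hD, hn2, hx⟩ := id hLV
  set A := ∑ x ∈ V, N x * (x + 1).choose 2 with hA
  set n := ∑ x ∈ V, N x with hn
  set l := ∑ x ∈ V, rp (N x) x with hl
  have hDA : D = 8 * A + n := by
    rw [hD, hA, hn, Finset.mul_sum, ← Finset.sum_add_distrib]
    refine Finset.sum_congr rfl fun x _ => ?_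
    have h1 := two_ch x
    calc N x * (2 * x + 1) ^ 2 = N x * (4 * ((x + 1) * x) + 1) := by ring
      _ = N x * (4 * (2 * (x + 1).choose 2) + 1) := by rw [h1]
      _ = 8 * (N x * (x + 1).choose 2) + N x := by ring
  have hD1 : 40000 ≤ D := by
    obtain ⟨x, hxV⟩ := hVn
    obtain ⟨h2, h3, _⟩ := hx x hxV
    refine le_trans ?_ h3
    have h4 : 200 ≤ 40 * c * (2 * x + 1) := by nlinarith
    calc 40000 = 200 ^ 2 := by norm_num
      _ ≤ _ := Nat.pow_le_pow_left h4 2
  have hex : ∃ e, A ≤ (e + 2).choose 2 := by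
    refine ⟨A, ?_⟩
    rw [Nat.choose_succ_succ (A + 1) 1, Nat.choose_one_right]
    omega
  -- monotonicity
  have hmono : ∀ a b, a ≤ b → gd a l ≤ gd b l := by
    intro a b hab
    induction b, hab using Nat.le_induction with
    | base => exact le_rfl
    | succ b _ ih => exact ih.trans (hM b l).1
  have hup : ∀ e, gd e l + A ≤ (e + 2).choose 2 → ∀ b, e ≤ b → gd b l + A ≤ (b + 2).choose 2 := by
    intro e he b hb
    induction b, hb using Nat.le_induction with
    | base => exact he
    | succ b _ ih =>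
      have h1 := (hM b l).2
      rw [ch_succ]
      omega
  classical
  obtain ⟨e, he, hmin⟩ : ∃ e, A ≤ (e + 2).choose 2 ∧ ∀ e' < e, (e' + 2).choose 2 < A := by
    refine ⟨Nat.find hex, Nat.find_spec hex, fun e' he' => ?_⟩
    exact not_le.1 (Nat.find_min hex he')
  have hch := two_ch (e + 1)
  -- upper bound of D
  have hup1 : D + 1 ≤ (2 * e + 3) ^ 2 + n := by
    have h1 : 2 * A ≤ (e + 1 + 1) * (e + 1) := by
      rw [← hch]
      exact Nat.mul_le_mul_left 2 he
    rw [hDA]
    nlinarith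
  have hbig : 49 * n ≤ 28 * (2 * e + 3) + 53 := by
    by_contra h
    rw [not_le] at h
    have h1 : (28 * (2 * e + 3) + 53) + 1 ≤ 49 * n := h
    have h2 : (4 * n ^ 2 : ℤ) ≤ D := by exact_mod_cast hn2
    have h3 : (D + 1 : ℤ) ≤ (2 * e + 3) ^ 2 + n := by exact_mod_cast hup1
    have h4 : (28 * (2 * (e : ℤ) + 3) + 54) ≤ 49 * n := by exact_mod_cast h1
    have h5 : (0 : ℤ) ≤ e := by positivity
    nlinarith
  have hlow : (2 * e + 1) ^ 2 < D := by
    rcases Nat.eq_zero_or_pos e with h0 | h0
    · rw [h0]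
      omega
    · obtain ⟨e', rfl⟩ := Nat.exists_eq_add_of_le' h0
      have h1 := hmin e' (by omega)
      have h2 := two_ch (e' + 1)
      rw [hDA]
      nlinarith
  have hE : gd e l ≤ (e + 2).choose 2 - A := by
    refine hO c e D V N hLV hlow ?_
    nlinarith
  have hE' : gd e l + A ≤ (e + 2).choose 2 := by omega
  by_cases hde : e ≤ d
  · have := hup e hE' d hde
    omega
  · rw [not_le] at hde
    obtain ⟨e', rfl⟩ := Nat.exists_eq_add_of_le' (by omega : 1 ≤ e)
    have h1 : gd e' l ≤ (e' + 2).choose 2 - A := by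
      refine hO c e' D V N hLV ?_ ?_
      · exact lt_of_le_of_lt (Nat.pow_le_pow_left (by omega) 2) hlow
      · nlinarith
    have h2 := hmin e' (by omega)
    have h3 := hmono d e' (by omega)
    omega

end Pool.Agent.Helper45.UC.ALLV
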