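import Pool.Agent.Helper46.UC.Defs

/-!
# MP_57a173_lc, Part C, packet RNK
-/

namespace UL.UC.PkRNK

/-- the number with the given binary digits -/
def v : List Bool → ℕ
  | [] => 0
  | b :: σ => b.toNat + 2 * v σ

/-- the first binary digits -/
def dec : ℕ → ℕ → List Bool
  | 0, _ => []
  | n + 1, m => decide (m % 2 = 1) :: dec n (m / 2)

theorem v_lt : ∀ σ : List Bool, v σ < 2 ^ σ.length
  | [] => by simp [v]
  | b :: σ => by
    have h := v_lt σ
    have hb : b.toNat ≤ 1 := Bool.toNat_le b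
    simp only [v, List.length_cons, pow_succ]
    omega

theorem dec_v : ∀ σ : List Bool, dec σ.length (v σ) = σ
  | [] => rfl
  | b :: σ => by
    have h := dec_v σ
    have h1 : (b.toNat + 2 * v σ) / 2 = v σ := by
      have hb : b.toNat ≤ 1 := Bool.toNat_le b
      omega
    have h2 : decide ((b.toNat + 2 * v σ) % 2 = 1) = b := by
      cases b
      · simp [Bool.toNat]
      · simp [Bool.toNat]
    simp only [v, List.length_cons, dec, h1, h2, h]

theorem rnk : P_RNK := by
  refine ⟨fun j => Nat.log 4 j, fun j => (j - 4 ^ Nat.log 4 j) / 2 ^ Nat.log 4 j,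
    fun j => dec (Nat.log 4 j) ((j - 4 ^ Nat.log 4 j) % 2 ^ Nat.log 4 j),
    fun n i σ => 4 ^ n + (i * 2 ^ n + v σ), fun a b h => Nat.log_mono_right h, fun n => ?_,
    fun n i σ hi hσ => ?_⟩
  · refine (Set.finite_lt_nat (4 ^ (n + 1))).subset fun j hj => ?_
    have hj' : Nat.log 4 j ≤ n := hj
    show j < 4 ^ (n + 1)
    exact lt_of_lt_of_le (Nat.lt_pow_succ_log_self (by norm_num) j)
      (Nat.pow_le_pow_right (by norm_num) (Nat.succ_le_succ hj'))
  · have hv : v σ < 2 ^ n := hσ ▸ v_lt σ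
    have h1 : n + 1 ≤ 2 ^ n := Nat.lt_two_pow_self
    have h2 : i * 2 ^ n + v σ < 4 ^ n := by
      have e : (4:ℕ) ^ n = 2 ^ n * 2 ^ n := by
        rw [← mul_pow]
        norm_num
      have h3 : (i + 1) * 2 ^ n ≤ 2 ^ n * 2 ^ n := Nat.mul_le_mul_right _ (by omega)
      rw [Nat.succ_mul] at h3
      omega
    have hlog : Nat.log 4 (4 ^ n + (i * 2 ^ n + v σ)) = n := by
      refine Nat.log_eq_of_pow_le_of_lt_pow (Nat.le_add_right _ _) ?_
      rw [pow_succ]
      omega
    have hpos : 0 < 2 ^ n := by positivity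
    simp only [hlog, Nat.add_sub_cancel_left]
    refine ⟨trivial, ?_, ?_⟩
    · rw [Nat.add_comm, Nat.add_mul_div_right _ _ hpos, Nat.div_eq_of_lt hv, Nat.zero_add]
    · rw [Nat.add_comm, Nat.add_mul_mod_self_right, Nat.mod_eq_of_lt hv]
      rw [← hσ]
      exact dec_v σ

end UL.UC.PkRNK
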